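import Pool.Agent.P.MP_548a57_lc.R.Main

/-!
For randomised one-pass algorithms with `O(n polylog n)` bits of memory and one-sided or nearly
one-sided error, the best ratio for estimating the size of a maximum matching is exactly one half.
-/

namespace Pool.Agent.Results.MP_548a57_lc.OneSidedHalf

open Pool.Agent.P.MP_548a57_lc Pool.Agent.P.MP_548a57_lc.R

theorem result (𝒢 : (n : ℕ) → Set (SimpleGraph (Fin n)))
    (h : ∀ (n : ℕ) (G : SimpleGraph (Fin n)), G.IsBipartite → G ∈ 𝒢 n) :
    IsGreatest {α : ℝ | Achievable 𝒢 α} (1 / 2) :=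
  main 𝒢 h

end Pool.Agent.Results.MP_548a57_lc.OneSidedHalf
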